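import Mathlib

-- part Pool.Agent.P.MP_8e1b3573_nt.Zero
section

set_option autoImplicit false

namespace Pool.Agent.P.MP_8e1b3573_nt

open Finset Polynomial

/-- Natural roots of a nonzero rational polynomial. -/
theorem card_le_natDegree (q : ℚ[X]) (hq : q ≠ 0) (G : Finset ℕ)
    (h : ∀ x ∈ G, q.eval (x : ℚ) = 0) : G.card ≤ q.natDegree := by
  classical
  refine le_trans ?_ ((Multiset.toFinset_card_le q.roots).trans (card_roots' q))
  refine Finset.card_le_card_of_injOn (fun n : ℕ => (n : ℚ)) ?_ (Nat.cast_injective.injOn)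
  intro n hn
  have h1 := h n (by simpa using hn)
  simp only [Finset.mem_coe, Multiset.mem_toFinset]
  exact (mem_roots hq).2 h1

/-- The shifted matrix. -/
noncomputable def casM {r : ℕ} (γ : Fin r → ℚ) (p : Fin r → ℚ[X]) :
    Matrix (Fin r) (Fin r) ℚ[X] :=
  Matrix.of fun i l => C (γ l ^ (i : ℕ)) * taylor ((i : ℕ) : ℚ) (p l)

theorem casM_natDegree {r : ℕ} (γ : Fin r → ℚ) (p : Fin r → ℚ[X]) (d : ℕ)
    (hd : ∀ l, (p l).natDegree ≤ d) : (casM γ p).det.natDegree ≤ r * d := by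
  classical
  rw [Matrix.det_apply]
  refine natDegree_sum_le_of_forall_le _ _ fun σ _ => ?_
  refine (natDegree_smul_le _ _).trans ((natDegree_prod_le _ _).trans ?_)
  calc ∑ i : Fin r, (casM γ p (σ i) i).natDegree ≤ ∑ _i : Fin r, d := by
        refine Finset.sum_le_sum fun i _ => ?_
        simp only [casM, Matrix.of_apply]
        refine (natDegree_C_mul_le _ _).trans ?_
        rw [natDegree_taylor]
        exact hd i
    _ = r * d := by simp

theorem casM_ne_zero {r : ℕ} (γ : Fin r → ℚ) (hγ : Function.Injective γ) (h0 : ∀ l, γ l ≠ 0)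
    (p : Fin r → ℚ[X]) (hp : ∀ l, p l ≠ 0) : (casM γ p).det ≠ 0 := by
  classical
  intro hdet
  have hc : (casM γ p).det.coeff (∑ l, (p l).natDegree) =
      (∏ l, (p l).leadingCoeff) * (Matrix.vandermonde γ).transpose.det := by
    rw [Matrix.det_apply, Matrix.det_apply, finsetSum_coeff, Finset.mul_sum]
    refine Finset.sum_congr rfl fun σ _ => ?_
    have hne : ∀ l, casM γ p (σ l) l ≠ 0 := by
      intro l
      simp only [casM, Matrix.of_apply]
      refine mul_ne_zero (C_ne_zero.2 (pow_ne_zero _ (h0 l))) ?_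
      intro h
      exact hp l ((taylor_eq_zero _ _).1 h)
    have hdeg : (∏ l, casM γ p (σ l) l).natDegree = ∑ l, (p l).natDegree := by
      rw [natDegree_prod _ _ fun l _ => hne l]
      refine Finset.sum_congr rfl fun l _ => ?_
      simp only [casM, Matrix.of_apply]
      rw [natDegree_C_mul (pow_ne_zero _ (h0 l)), natDegree_taylor]
    have hlc : (∏ l, casM γ p (σ l) l).coeff (∑ l, (p l).natDegree) =
        (∏ l, (p l).leadingCoeff) * ∏ l, γ l ^ ((σ l : Fin r) : ℕ) := by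
      rw [← hdeg, coeff_natDegree, leadingCoeff_prod, ← Finset.prod_mul_distrib]
      refine Finset.prod_congr rfl fun l _ => ?_
      simp only [casM, Matrix.of_apply]
      rw [leadingCoeff_mul, leadingCoeff_C, leadingCoeff_taylor, mul_comm]
    rw [coeff_smul, hlc]
    simp only [Matrix.transpose_apply, Matrix.vandermonde_apply]
    rw [Units.smul_def, Units.smul_def, zsmul_eq_mul, zsmul_eq_mul]
    ring
  rw [hdet, coeff_zero, Matrix.det_transpose] at hc
  have h1 : (∏ l, (p l).leadingCoeff) ≠ 0 :=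
    Finset.prod_ne_zero_iff.2 fun l _ => leadingCoeff_ne_zero.2 (hp l)
  exact mul_ne_zero h1 (Matrix.det_vandermonde_ne_zero_iff.2 hγ) hc.symm

theorem zero_fin {r : ℕ} (γ : Fin r → ℚ) (hγ : Function.Injective γ) (h0 : ∀ l, γ l ≠ 0)
    (p : Fin r → ℚ[X]) (hp : ∀ l, p l ≠ 0) (d : ℕ) (hd : ∀ l, (p l).natDegree ≤ d)
    (G : Finset ℕ) (hG : ∀ x ∈ G, ∃ y : Fin r → ℚ, y ≠ 0 ∧
      ∀ i : Fin r, ∑ l, (p l).eval (((x + i : ℕ)) : ℚ) * γ l ^ (i : ℕ) * y l = 0) :
    G.card ≤ r * d := by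
  classical
  refine le_trans (card_le_natDegree _ (casM_ne_zero γ hγ h0 p hp) G fun x hx => ?_)
    (casM_natDegree γ p d hd)
  obtain ⟨y, hy0, hy⟩ := hG x hx
  have h1 : ((casM γ p).map (evalRingHom (x : ℚ))).det = 0 := by
    refine Matrix.exists_mulVec_eq_zero_iff.1 ⟨y, hy0, ?_⟩
    funext i
    simp only [Matrix.mulVec, dotProduct, Pi.zero_apply, Matrix.map_apply, casM, Matrix.of_apply,
      coe_evalRingHom, eval_mul, eval_C, taylor_eval]
    rw [← hy i]
    refine Finset.sum_congr rfl fun l _ => ?_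
    push_cast
    ring
  have h2 := (evalRingHom (x : ℚ)).map_det (casM γ p)
  rw [RingHom.mapMatrix_apply, h1] at h2
  simpa using h2

/-- Zero estimate: not all `p l` vanish, and at each point of `G` there are `L` consecutive
relations. -/
theorem zero_est (L d : ℕ) (γ : Fin L → ℚ) (hγ : Function.Injective γ) (h0 : ∀ l, γ l ≠ 0)
    (p : Fin L → ℚ[X]) (hp : ∃ l, p l ≠ 0) (hd : ∀ l, (p l).natDegree ≤ d)
    (G : Finset ℕ) (hG : ∀ x ∈ G, ∃ y : Fin L → ℚ, (∀ l, y l ≠ 0) ∧
      ∀ i < L, ∑ l, (p l).eval (((x + i : ℕ)) : ℚ) * γ l ^ i * y l = 0) :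
    G.card ≤ L * d := by
  classical
  set s : Finset (Fin L) := univ.filter fun l => p l ≠ 0 with hs
  have hsL : s.card ≤ L := by
    simpa using Finset.card_le_univ s
  let e : Fin s.card ≃ s := s.equivFin.symm
  have hmem : ∀ j, p (e j) ≠ 0 := fun j => (Finset.mem_filter.1 (e j).2).2
  have h1 : G.card ≤ s.card * d := by
    refine zero_fin (fun j => γ (e j)) (fun j j' h => e.injective (Subtype.ext (hγ h)))
      (fun j => h0 _) (fun j => p (e j)) hmem d (fun j => hd _) G fun x hx => ?_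
    obtain ⟨y, hy0, hy⟩ := hG x hx
    refine ⟨fun j => y (e j), ?_, fun i => ?_⟩
    · obtain ⟨l, hl⟩ := hp
      intro h
      exact hy0 _ (congrFun h (e.symm ⟨l, by simp [hs, hl]⟩))
    · have h2 := hy i (lt_of_lt_of_le i.2 hsL)
      rw [← h2, Equiv.sum_comp e
        (fun l : s => (p l).eval (((x + i : ℕ)) : ℚ) * γ l ^ (i : ℕ) * y l),
        Finset.sum_coe_sort s (fun l => (p l).eval (((x + i : ℕ)) : ℚ) * γ l ^ (i : ℕ) * y l)]
      refine Finset.sum_subset (Finset.subset_univ _) fun l _ hl => ?_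
      have : p l = 0 := by simpa [hs] using hl
      simp [this]
  exact h1.trans (Nat.mul_le_mul_right d hsL)

end Pool.Agent.P.MP_8e1b3573_nt
end

-- part Pool.Agent.P.MP_8e1b3573_nt.TwoLog
section

set_option autoImplicit false

namespace Pool.Agent.P.MP_8e1b3573_nt

open Finset Polynomial

/-- Expansion of `choose z k * γ ^ z` in the binomial basis. -/
theorem mahler_id (γ : ℤ) (z k : ℕ) :
    (z.choose k : ℤ) * γ ^ z = ∑ i ∈ range (z + 1),
      (z.choose i : ℤ) * ((i.choose k : ℤ) * γ ^ k * (γ - 1) ^ (i - k)) := by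
  by_cases hk : k ≤ z
  · obtain ⟨w, rfl⟩ := Nat.exists_eq_add_of_le hk
    have h1 : γ ^ w = ∑ j ∈ range (w + 1), (w.choose j : ℤ) * (γ - 1) ^ j := by
      have h2 := add_pow (γ - 1) 1 w
      rw [sub_add_cancel] at h2
      rw [h2]
      exact Finset.sum_congr rfl fun j _ => by rw [one_pow]; ring
    have h3 : k + w + 1 = k + (w + 1) := by ring
    rw [h3, Finset.sum_range_add, Finset.sum_eq_zero (s := range k), zero_add, pow_add, h1,
      Finset.mul_sum, Finset.mul_sum]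
    · refine Finset.sum_congr rfl fun j hj => ?_
      have h4 : (k + w).choose (k + j) * (k + j).choose k = (k + w).choose k * w.choose j := by
        have := Nat.choose_mul (n := k + w) (k := k + j) (s := k) (by omega)
        simpa using this
      have h5 : ((k + w).choose (k + j) : ℤ) * ((k + j).choose k : ℤ) =
          ((k + w).choose k : ℤ) * (w.choose j : ℤ) := by exact_mod_cast h4
      rw [Nat.add_sub_cancel_left]
      linear_combination (-(γ ^ k * (γ - 1) ^ j)) * h5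
    · intro i hi
      rw [Nat.choose_eq_zero_of_lt (Finset.mem_range.1 hi)]
      simp
  · rw [Nat.choose_eq_zero_of_lt (by omega)]
    symm
    rw [Nat.cast_zero, zero_mul]
    refine Finset.sum_eq_zero fun i hi => ?_
    have : i < k := by have := Finset.mem_range.1 hi; omega
    rw [Nat.choose_eq_zero_of_lt this]
    simp

/-- An auxiliary function all of whose values are divisible by `2 ^ T`. -/
theorem exists_aux (α : ℤ) (hα : Odd α) (K L T E : ℕ) (hE : T * (K + T) < E * (K * L)) :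
    ∃ c : Fin K × Fin L → ℤ, c ≠ 0 ∧ (∀ x, |c x| ≤ 2 ^ E) ∧ ∀ z : ℕ,
      (2 : ℤ) ^ T ∣ ∑ x : Fin K × Fin L,
        c x * ((z.choose x.1 : ℤ) * (α ^ (x.2 : ℕ)) ^ z) := by
  classical
  let w : Fin K × Fin L → ℕ → ℤ := fun x i =>
    (i.choose x.1 : ℤ) * (α ^ (x.2 : ℕ)) ^ (x.1 : ℕ) * (α ^ (x.2 : ℕ) - 1) ^ (i - x.1)
  have : NeZero (2 ^ T) := ⟨by positivity⟩
  let F : (Fin K × Fin L → Fin (2 ^ E)) → (Fin (K + T) → ZMod (2 ^ T)) := fun f i =>
    ((∑ x, ((f x : ℕ) : ℤ) * w x i : ℤ) : ZMod (2 ^ T))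
  have hcard : Fintype.card (Fin (K + T) → ZMod (2 ^ T)) <
      Fintype.card (Fin K × Fin L → Fin (2 ^ E)) := by
    simp only [Fintype.card_fun, Fintype.card_fin, ZMod.card, Fintype.card_prod, ← pow_mul]
    exact Nat.pow_lt_pow_right (by norm_num) hE
  obtain ⟨f, g, hfg, hF⟩ := Fintype.exists_ne_map_eq_of_card_lt F hcard
  refine ⟨fun x => ((f x : ℕ) : ℤ) - ((g x : ℕ) : ℤ), ?_, fun x => ?_, fun z => ?_⟩
  · intro h
    apply hfg
    funext x
    have h1 := congrFun h x
    simp only [Pi.zero_apply, sub_eq_zero, Nat.cast_inj] at h1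
    exact Fin.ext h1
  · have h1 : ((f x : ℕ) : ℤ) < 2 ^ E := by exact_mod_cast (f x).2
    have h2 : ((g x : ℕ) : ℤ) < 2 ^ E := by exact_mod_cast (g x).2
    have h3 : (0 : ℤ) ≤ ((f x : ℕ) : ℤ) := Int.natCast_nonneg _
    have h4 : (0 : ℤ) ≤ ((g x : ℕ) : ℤ) := Int.natCast_nonneg _
    rw [abs_le]
    constructor <;> linarith
  · have hm : ∀ i : ℕ, (2 : ℤ) ^ T ∣
        ∑ x : Fin K × Fin L, (((f x : ℕ) : ℤ) - ((g x : ℕ) : ℤ)) * w x i := by
      intro i
      by_cases hi : i < K + T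
      · have h1 := congrFun hF ⟨i, hi⟩
        simp only [F] at h1
        have h2 := (ZMod.intCast_eq_intCast_iff_dvd_sub _ _ _).1 h1.symm
        simp only [sub_mul, Finset.sum_sub_distrib]
        exact_mod_cast h2
      · refine Finset.dvd_sum fun x _ => Dvd.dvd.mul_left (Dvd.dvd.mul_left ?_ _) _
        have h1 : (2 : ℤ) ∣ α ^ (x.2 : ℕ) - 1 :=
          even_iff_two_dvd.1 (Odd.sub_odd hα.pow odd_one)
        have h2 : T ≤ i - x.1 := by have := x.1.2; omega
        exact (pow_dvd_pow 2 h2).trans (pow_dvd_pow_of_dvd h1 _)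
    have e : ∑ x : Fin K × Fin L, (((f x : ℕ) : ℤ) - ((g x : ℕ) : ℤ)) *
          ((z.choose x.1 : ℤ) * (α ^ (x.2 : ℕ)) ^ z) =
        ∑ i ∈ range (z + 1), (z.choose i : ℤ) *
          ∑ x : Fin K × Fin L, (((f x : ℕ) : ℤ) - ((g x : ℕ) : ℤ)) * w x i := by
      simp only [Finset.mul_sum]
      rw [Finset.sum_comm]
      refine Finset.sum_congr rfl fun x _ => ?_
      rw [mahler_id, Finset.mul_sum]
      exact Finset.sum_congr rfl fun i _ => by simp only [w]; ring
    rw [e]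
    exact Finset.dvd_sum fun i _ => (hm i).mul_left _

/-- The polynomial with given coefficients in the binomial basis. -/
noncomputable def binP {K : ℕ} (c : Fin K → ℤ) : ℚ[X] :=
  ∑ k : Fin K, C ((c k : ℚ) / ((k : ℕ).factorial : ℚ)) * descPochhammer ℚ k

theorem binP_eval {K : ℕ} (c : Fin K → ℤ) (z : ℕ) :
    (binP c).eval (z : ℚ) = ∑ k : Fin K, (c k : ℚ) * (z.choose k : ℚ) := by
  rw [binP, eval_finsetSum]
  refine Finset.sum_congr rfl fun k _ => ?_
  rw [eval_mul, eval_C, descPochhammer_eval_eq_descFactorial,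
    Nat.descFactorial_eq_factorial_mul_choose]
  have : ((k : ℕ).factorial : ℚ) ≠ 0 := by exact_mod_cast Nat.factorial_ne_zero _
  push_cast
  field_simp

theorem binP_natDegree {K : ℕ} (c : Fin K → ℤ) : (binP c).natDegree ≤ K - 1 := by
  refine natDegree_sum_le_of_forall_le _ _ fun k _ => ?_
  refine (natDegree_C_mul_le _ _).trans ?_
  rw [descPochhammer_natDegree]
  have := k.2
  omega

theorem binP_ne_zero {K : ℕ} (c : Fin K → ℤ) (hc : ∃ k, c k ≠ 0) : binP c ≠ 0 := by
  classical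
  intro h
  have hall : ∀ n : ℕ, ∀ k : Fin K, (k : ℕ) = n → c k = 0 := by
    intro n
    induction n using Nat.strong_induction_on with
    | _ n ih =>
      intro k hk
      have h1 := binP_eval c n
      rw [h, eval_zero, Finset.sum_eq_single k] at h1
      · rw [hk, Nat.choose_self] at h1
        simpa using h1.symm
      · intro j _ hj
        rcases lt_trichotomy (j : ℕ) n with h2 | h2 | h2
        · rw [ih j h2 j rfl]; simp
        · exact absurd (Fin.ext (h2.trans hk.symm)) hj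
        · rw [Nat.choose_eq_zero_of_lt h2]; simp
      · intro hk'
        exact absurd (Finset.mem_univ _) hk'
  obtain ⟨k, hk⟩ := hc
  exact hk (hall k k rfl)

/-- The core of the argument with free parameters. -/
theorem twolog_core (α u v b a h m K L T E R S : ℕ) (hα : Odd α) (h1 : 1 < α) (hαa : α ≤ 2 ^ a)
    (hu : 0 < u) (hv : 0 < v) (huh : u ≤ 2 ^ h) (hvh : v ≤ 2 ^ h)
    (hE : T * (K + T) < E * (K * L)) (hRb : R ≤ b) (hm : L + R + b * S ≤ 2 ^ m)
    (hsize : K + L + E + m * K + a * L * (L + R) + h * L * S < T)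
    (hcount : L * (K - 1) < R * S) :
    ¬ ((2 : ℤ) ^ T ∣ (α : ℤ) ^ b * u - v) := by
  classical
  intro hdvd
  obtain ⟨c, hc0, hcE, hc⟩ := exists_aux (α : ℤ) (by exact_mod_cast hα) K L T E hE
  have hzero : ∀ r < L + R, ∀ j < S, ∑ x : Fin K × Fin L, c x * (((r + b * j).choose x.1 : ℤ) *
      ((α : ℤ) ^ ((x.2 : ℕ) * r) * (v : ℤ) ^ ((x.2 : ℕ) * j) *
        (u : ℤ) ^ ((L - x.2) * j))) = 0 := by
    intro r hr j hj
    have hd : (2 : ℤ) ^ T ∣ ∑ x : Fin K × Fin L, c x * (((r + b * j).choose x.1 : ℤ) *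
      ((α : ℤ) ^ ((x.2 : ℕ) * r) * (v : ℤ) ^ ((x.2 : ℕ) * j) *
        (u : ℤ) ^ ((L - x.2) * j))) := by
      have h2 := (hc (r + b * j)).mul_left ((u : ℤ) ^ (L * j))
      rw [← dvd_sub_right h2, Finset.mul_sum, ← Finset.sum_sub_distrib]
      refine Finset.dvd_sum fun x _ => ?_
      have h3 : (2 : ℤ) ^ T ∣ ((α : ℤ) ^ b * u) ^ ((x.2 : ℕ) * j) - (v : ℤ) ^ ((x.2 : ℕ) * j) :=
        hdvd.trans (sub_dvd_pow_sub_pow _ _ _)
      have h4 : L * j = (x.2 : ℕ) * j + (L - x.2) * j := by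
        rw [← add_mul, Nat.add_sub_cancel' x.2.2.le]
      have h5 : (u : ℤ) ^ (L * j) * (c x * (((r + b * j).choose x.1 : ℤ) *
            ((α : ℤ) ^ (x.2 : ℕ)) ^ (r + b * j))) -
          c x * (((r + b * j).choose x.1 : ℤ) *
            ((α : ℤ) ^ ((x.2 : ℕ) * r) * (v : ℤ) ^ ((x.2 : ℕ) * j) *
              (u : ℤ) ^ ((L - x.2) * j))) =
          (c x * ((r + b * j).choose x.1 : ℤ) * (α : ℤ) ^ ((x.2 : ℕ) * r) *
            (u : ℤ) ^ ((L - x.2) * j)) *
          (((α : ℤ) ^ b * u) ^ ((x.2 : ℕ) * j) - (v : ℤ) ^ ((x.2 : ℕ) * j)) := by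
        rw [h4, pow_add, mul_pow, ← pow_mul, ← pow_mul]
        have h6 : (x.2 : ℕ) * (r + b * j) = (x.2 : ℕ) * r + b * ((x.2 : ℕ) * j) := by ring
        rw [h6, pow_add]
        ring
      rw [h5]
      exact h3.mul_left _
    refine Int.eq_zero_of_abs_lt_dvd hd ?_
    have hterm : ∀ x : Fin K × Fin L, |c x * (((r + b * j).choose x.1 : ℤ) *
        ((α : ℤ) ^ ((x.2 : ℕ) * r) * (v : ℤ) ^ ((x.2 : ℕ) * j) *
          (u : ℤ) ^ ((L - x.2) * j)))| ≤ 2 ^ (E + m * K + a * L * (L + R) + h * L * S) := by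
      intro x
      have hx1 := x.1.2
      have hx2 := x.2.2
      have hz : r + b * j ≤ 2 ^ m := by
        have : b * j ≤ b * S := Nat.mul_le_mul_left b hj.le
        omega
      have e1 : (r + b * j).choose x.1 ≤ 2 ^ (m * K) := by
        calc (r + b * j).choose x.1 ≤ (r + b * j) ^ (x.1 : ℕ) := Nat.choose_le_pow _ _
          _ ≤ (2 ^ m) ^ (x.1 : ℕ) := Nat.pow_le_pow_left hz _
          _ ≤ (2 ^ m) ^ K := Nat.pow_le_pow_right (by positivity) hx1.le
          _ = 2 ^ (m * K) := by rw [← pow_mul]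
      have e2 : α ^ ((x.2 : ℕ) * r) ≤ 2 ^ (a * L * (L + R)) := by
        calc α ^ ((x.2 : ℕ) * r) ≤ (2 ^ a) ^ ((x.2 : ℕ) * r) := Nat.pow_le_pow_left hαa _
          _ ≤ (2 ^ a) ^ (L * (L + R)) :=
            Nat.pow_le_pow_right (by positivity) (Nat.mul_le_mul hx2.le hr.le)
          _ = 2 ^ (a * L * (L + R)) := by rw [← pow_mul, mul_assoc]
      have e3 : v ^ ((x.2 : ℕ) * j) * u ^ ((L - x.2) * j) ≤ 2 ^ (h * L * S) := by
        calc v ^ ((x.2 : ℕ) * j) * u ^ ((L - x.2) * j)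
            ≤ (2 ^ h) ^ ((x.2 : ℕ) * j) * (2 ^ h) ^ ((L - x.2) * j) :=
              Nat.mul_le_mul (Nat.pow_le_pow_left hvh _) (Nat.pow_le_pow_left huh _)
          _ = (2 ^ h) ^ (L * j) := by
              rw [← pow_add, ← add_mul, Nat.add_sub_cancel' hx2.le]
          _ ≤ (2 ^ h) ^ (L * S) :=
              Nat.pow_le_pow_right (by positivity) (Nat.mul_le_mul_left L hj.le)
          _ = 2 ^ (h * L * S) := by rw [← pow_mul, mul_assoc]
      have e4 : (r + b * j).choose x.1 * (α ^ ((x.2 : ℕ) * r) * v ^ ((x.2 : ℕ) * j) *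
          u ^ ((L - x.2) * j)) ≤ 2 ^ (m * K + a * L * (L + R) + h * L * S) := by
        rw [pow_add, pow_add, mul_assoc (α ^ _), mul_assoc (2 ^ _)]
        exact Nat.mul_le_mul e1 (Nat.mul_le_mul e2 e3)
      have e5 : (((r + b * j).choose x.1 : ℤ) *
          ((α : ℤ) ^ ((x.2 : ℕ) * r) * (v : ℤ) ^ ((x.2 : ℕ) * j) *
            (u : ℤ) ^ ((L - x.2) * j))) ≤ 2 ^ (m * K + a * L * (L + R) + h * L * S) := by
        exact_mod_cast e4
      rw [abs_mul, abs_of_nonneg (a := ((r + b * j).choose x.1 : ℤ) * _) (by positivity),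
        add_assoc, add_assoc, pow_add, ← add_assoc]
      exact mul_le_mul (hcE x) e5 (by positivity) (by positivity)
    refine lt_of_le_of_lt (Finset.abs_sum_le_sum_abs _ _) ?_
    refine lt_of_le_of_lt (Finset.sum_le_sum fun x _ => hterm x) ?_
    rw [Finset.sum_const, Finset.card_univ, Fintype.card_prod, Fintype.card_fin, Fintype.card_fin,
      nsmul_eq_mul]
    have e6 : K * L ≤ 2 ^ (K + L) := by
      rw [pow_add]
      exact Nat.mul_le_mul Nat.lt_two_pow_self.le Nat.lt_two_pow_self.le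
    have e7 : ((K * L : ℕ) : ℤ) ≤ 2 ^ (K + L) := by exact_mod_cast e6
    calc ((K * L : ℕ) : ℤ) * 2 ^ (E + m * K + a * L * (L + R) + h * L * S)
        ≤ 2 ^ (K + L) * 2 ^ (E + m * K + a * L * (L + R) + h * L * S) :=
          mul_le_mul_of_nonneg_right e7 (by positivity)
      _ = 2 ^ (K + L + E + m * K + a * L * (L + R) + h * L * S) := by
          rw [← pow_add]; congr 1; ring
      _ < 2 ^ T := pow_lt_pow_right₀ (by norm_num) hsize
  have hαq : (1 : ℚ) < α := by exact_mod_cast h1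
  have hG := zero_est L (K - 1) (fun l : Fin L => (α : ℚ) ^ (l : ℕ))
    (fun l l' hl => Fin.ext (pow_right_injective₀ (by linarith) hαq.ne' hl))
    (fun l => by positivity) (fun l => binP fun k => c (k, l))
    (by
      obtain ⟨x, hx⟩ := Function.ne_iff.1 hc0
      exact ⟨x.2, binP_ne_zero _ ⟨x.1, hx⟩⟩)
    (fun l => binP_natDegree _)
    ((range R ×ˢ range S).image fun y => y.1 + b * y.2)
    (by
      intro x hx
      obtain ⟨⟨r, j⟩, hrj, rfl⟩ := Finset.mem_image.1 hx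
      simp only [Finset.mem_product, Finset.mem_range] at hrj
      refine ⟨fun l => (α : ℚ) ^ ((l : ℕ) * r) * (v : ℚ) ^ ((l : ℕ) * j) *
        (u : ℚ) ^ ((L - l) * j), fun l => by positivity, fun i hi => ?_⟩
      have h2 := hzero (r + i) (by omega) j hrj.2
      have h3 : ((∑ x : Fin K × Fin L, c x * (((r + i + b * j).choose x.1 : ℤ) *
        ((α : ℤ) ^ ((x.2 : ℕ) * (r + i)) * (v : ℤ) ^ ((x.2 : ℕ) * j) *
          (u : ℤ) ^ ((L - x.2) * j))) : ℤ) : ℚ) = 0 := by rw [h2]; simp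
      rw [← h3, Fintype.sum_prod_type_right]
      push_cast
      refine Finset.sum_congr rfl fun l _ => ?_
      have h4 := binP_eval (fun k => c (k, l)) (r + b * j + i)
      push_cast at h4
      rw [h4, Finset.sum_mul, Finset.sum_mul]
      refine Finset.sum_congr rfl fun k _ => ?_
      have h5 : r + i + b * j = r + b * j + i := by ring
      rw [h5, ← pow_mul, mul_add (l : ℕ) r i, pow_add]
      ring)
  rw [Finset.card_image_of_injOn, Finset.card_product, Finset.card_range, Finset.card_range] at hG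
  · omega
  · rintro ⟨r, j⟩ hrj ⟨r', j'⟩ hrj' he
    simp only [Finset.coe_product, Finset.coe_range, Set.mem_prod, Set.mem_Iio] at hrj hrj'
    simp only at he
    have hb : 0 < b := by omega
    have e1 : (r + b * j) % b = (r' + b * j') % b := by rw [he]
    rw [Nat.add_mul_mod_self_left, Nat.add_mul_mod_self_left, Nat.mod_eq_of_lt (by omega),
      Nat.mod_eq_of_lt (by omega)] at e1
    subst e1
    have e2 : b * j = b * j' := by omega
    rw [Nat.eq_of_mul_eq_mul_left hb e2]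

/-- An elementary 2-adic bound for a linear form in two logarithms. -/
theorem twolog (α u v b a h m : ℕ) (hα : Odd α) (h1 : 1 < α) (hαa : α ≤ 2 ^ a)
    (hu : 0 < u) (hv : 0 < v) (huh : u ≤ 2 ^ h) (hvh : v ≤ 2 ^ h) (hh : 1 ≤ h) (hm : 2 ≤ m)
    (hb : 512 * m * h ≤ b) (hm2 : 528 * m * (h + a * b) ≤ 2 ^ m) :
    ¬ ((2 : ℤ) ^ (135168 * m ^ 2 * (a * h)) ∣ (α : ℤ) ^ b * u - v) := by
  have ha : 1 ≤ a := by
    rcases Nat.eq_zero_or_pos a with h0 | h0
    · subst h0; omega
    · exact h0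
  obtain ⟨K, hK⟩ : ∃ K, K = 16896 * m * (a * h) := ⟨_, rfl⟩
  have hah : 1 ≤ a * h := Nat.mul_pos ha hh
  have hKm : 16896 * m ≤ K := by rw [hK]; exact Nat.le_mul_of_pos_right _ hah
  have hT : 135168 * m ^ 2 * (a * h) = 8 * m * K := by rw [hK]; ring
  rw [hT]
  have hmK : 2 * K ≤ m * K := Nat.mul_le_mul_right K hm
  refine twolog_core α u v b a h m K (16 * m) (8 * m * K) (K + 4 * m * K) (512 * m * h)
    (528 * m * a) hα h1 hαa hu hv huh hvh ?_ hb ?_ ?_ ?_
  · have e : (K + 4 * m * K) * (K * (16 * m)) = 8 * m * K * (K + 8 * m * K) + 8 * m * K * K := by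
      ring
    have : 0 < 8 * m * K * K := by
      have : 0 < K := by omega
      positivity
    omega
  · have e1 : 16 * m ≤ 16 * m * h := Nat.le_mul_of_pos_right _ hh
    have e2 : 528 * m * (h + a * b) = 16 * m * h + 512 * m * h + b * (528 * m * a) := by ring
    omega
  · have e1 : a * (16 * m) * (16 * m + 512 * m * h) ≤ a * (16 * m) * (528 * m * h) := by
      refine Nat.mul_le_mul_left _ ?_
      have e1 : 16 * m ≤ 16 * m * h := Nat.le_mul_of_pos_right _ hh
      have e2 : 528 * m * h = 16 * m * h + 512 * m * h := by ring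
      omega
    have e2 : 2 * (a * (16 * m) * (528 * m * h)) = m * K := by rw [hK]; ring
    have e3 : 2 * (h * (16 * m) * (528 * m * a)) = m * K := by rw [hK]; ring
    have e4 : 8 * m * K = 8 * (m * K) := by ring
    have e5 : 4 * m * K = 4 * (m * K) := by ring
    omega
  · have e1 : 512 * m * h * (528 * m * a) = 16 * m * K := by rw [hK]; ring
    rw [e1]
    exact Nat.mul_lt_mul_of_pos_left (by omega) (by omega)

end Pool.Agent.P.MP_8e1b3573_nt
end

-- part Pool.Agent.P.MP_8e1b3573_nt.Many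
section

set_option autoImplicit false

namespace Pool.Agent.P.MP_8e1b3573_nt

open Finset Nat

theorem cell_close {n D x y : ℕ} (hn : 0 < n) (h : x * D / n = y * D / n) :
    x * D < y * D + n := by
  have h1 := Nat.div_add_mod (x * D) n
  have h2 := Nat.div_add_mod (y * D) n
  have h3 := Nat.mod_lt (x * D) hn
  rw [h] at h1
  omega

/-- Simultaneous approximation of the exponent vector. -/
theorem dirichlet (K n D : ℕ) (hn : 0 < n) (hD : 0 < D) (F : Finset ℕ) (hF : F.card ≤ K)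
    (e : ℕ → ℕ) : ∃ c : ℕ, 1 ≤ c ∧ c ≤ D ^ K ∧ ∃ ci : ℕ → ℕ, ∀ q ∈ F,
      c * e q * D < n * ci q * D + n ∧ n * ci q * D < c * e q * D + n := by
  classical
  have hlt : ∀ x : ℕ, x % n * D / n < D := fun x =>
    (Nat.div_lt_iff_lt_mul hn).2 (by
      rw [mul_comm D n]; exact Nat.mul_lt_mul_of_pos_right (Nat.mod_lt _ hn) hD)
  let f : Fin (D ^ K + 1) → (F → Fin D) := fun j q => ⟨(j * e q) % n * D / n, hlt _⟩
  have hcard : Fintype.card (F → Fin D) < Fintype.card (Fin (D ^ K + 1)) := by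
    simp only [Fintype.card_fun, Fintype.card_fin, Fintype.card_coe]
    exact Nat.lt_succ_of_le (Nat.pow_le_pow_right hD hF)
  have key : ∀ j j' : Fin (D ^ K + 1), j < j' → f j = f j' →
      ∃ c : ℕ, 1 ≤ c ∧ c ≤ D ^ K ∧ ∃ ci : ℕ → ℕ, ∀ q ∈ F,
      c * e q * D < n * ci q * D + n ∧ n * ci q * D < c * e q * D + n := by
    intro j j' hjj hf
    have hj : (j : ℕ) < j' := hjj
    obtain ⟨c, hc⟩ := Nat.exists_eq_add_of_le hj.le
    have hj' := j'.2
    refine ⟨c, by omega, by omega, fun q => (j' * e q) / n - (j * e q) / n, fun q hq => ?_⟩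
    have h1 : (j * e q) % n * D / n = (j' * e q) % n * D / n :=
      congrArg Fin.val (congrFun hf ⟨q, hq⟩)
    have h2 := cell_close hn h1
    have h3 := cell_close hn h1.symm
    have h4 : (j * e q) / n ≤ (j' * e q) / n :=
      Nat.div_le_div_right (Nat.mul_le_mul_right _ hj.le)
    obtain ⟨d, hd⟩ := Nat.exists_eq_add_of_le h4
    have h5 := Nat.div_add_mod (j * e q) n
    have h6 := Nat.div_add_mod (j' * e q) n
    simp only [hd, Nat.add_sub_cancel_left]
    have h7 : (j' : ℕ) * e q = j * e q + c * e q := by rw [hc]; ring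
    have h8 : n * d + (j' * e q) % n = (j * e q) % n + c * e q := by
      rw [hd, mul_add] at h6
      omega
    have h9 : n * d * D + (j' * e q) % n * D = (j * e q) % n * D + c * e q * D := by
      rw [← add_mul, ← add_mul, h8]
    omega
  obtain ⟨j, j', hne, hf⟩ := Fintype.exists_ne_map_eq_of_card_lt f hcard
  rcases lt_or_gt_of_ne hne with h | h
  · exact key j j' h hf
  · exact key j' j h hf.symm

theorem two_pow_dvd_factorial (n : ℕ) : 2 ^ (n / 2) ∣ n ! := by
  have h : ∀ k : ℕ, 2 ^ k ∣ (2 * k)! := by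
    intro k
    induction k with
    | zero => simp
    | succ k ih =>
      have e : (2 * (k + 1))! = (2 * k)! * 2 * ((k + 1) * (2 * k + 1)) := by
        rw [show 2 * (k + 1) = (2 * k + 1) + 1 by ring, Nat.factorial_succ, Nat.factorial_succ]
        ring
      rw [e, pow_succ]
      exact Dvd.dvd.mul_right (Nat.mul_dvd_mul_right ih 2) _
  exact (h _).trans (Nat.factorial_dvd_factorial (Nat.mul_div_le n 2))

theorem prod_pow_le (F : Finset ℕ) (K lam r : ℕ) (hF : F.card ≤ K) (hq : ∀ q ∈ F, q ≤ 2 ^ lam)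
    (f : ℕ → ℕ) (hf : ∀ q ∈ F, f q ≤ r) : ∏ q ∈ F, q ^ f q ≤ 2 ^ (K * lam * r) := by
  calc ∏ q ∈ F, q ^ f q ≤ ∏ _q ∈ F, 2 ^ (lam * r) := by
        refine Finset.prod_le_prod' fun q hqF => ?_
        calc q ^ f q ≤ (2 ^ lam) ^ f q := Nat.pow_le_pow_left (hq q hqF) _
          _ ≤ (2 ^ lam) ^ r := Nat.pow_le_pow_right (by positivity) (hf q hqF)
          _ = 2 ^ (lam * r) := by rw [← pow_mul]
    _ = 2 ^ (F.card * (lam * r)) := by rw [Finset.prod_const, ← pow_mul, mul_comm]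
    _ ≤ 2 ^ (K * lam * r) := by
        refine Nat.pow_le_pow_right (by norm_num) ?_
        rw [mul_assoc]
        exact Nat.mul_le_mul_right _ hF

theorem rem_le {n D c e ci : ℕ} (hc : 1 ≤ c) (hD : 0 < D) (hci : ci ≤ c)
    (h1 : c * e * D < n * ci * D + n) (h2 : n * ci * D < c * e * D + n) :
    e - n / c * ci ≤ n / (D * c) + c ∧ n / c * ci - e ≤ n / (D * c) + c := by
  have hDc : 0 < D * c := Nat.mul_pos hD hc
  have h3 := Nat.div_add_mod n c
  have h4 := Nat.mod_lt n hc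
  obtain ⟨g, hg⟩ : ∃ g, g = n / c := ⟨_, rfl⟩
  obtain ⟨t, ht⟩ : ∃ t, t = n % c := ⟨_, rfl⟩
  rw [← hg, ← ht] at h3
  rw [← ht] at h4
  rw [← hg]
  have h5 : n * ci * D = g * ci * (D * c) + t * ci * D := by rw [← h3]; ring
  have h6 : t * ci * D ≤ c * (D * c) := by
    calc t * ci * D ≤ c * c * D := Nat.mul_le_mul_right _ (Nat.mul_le_mul h4.le hci)
      _ = c * (D * c) := by ring
  have h7 : c * e * D = e * (D * c) := by ring
  constructor
  · have : e - g * ci - c ≤ n / (D * c) := by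
      rw [Nat.le_div_iff_mul_le hDc, Nat.sub_mul, Nat.sub_mul]
      omega
    omega
  · have : g * ci - e ≤ n / (D * c) := by
      rw [Nat.le_div_iff_mul_le hDc, Nat.sub_mul]
      omega
    omega

/-- `n! + 1` is not a product of powers of few small odd numbers and a small cofactor. -/
theorem many (K n lam σ s : ℕ) (hK : 1 ≤ K) (F : Finset ℕ) (hF : F.card ≤ K) (e : ℕ → ℕ)
    (hq : ∀ q ∈ F, Odd q ∧ n < q ∧ q ≤ 2 ^ lam) (hs : s ≤ 2 ^ σ)
    (heq : n ! + 1 = (∏ q ∈ F, q ^ e q) * s) (hn : n ≤ 2 ^ lam)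
    (H1 : 4325376 * K ^ 2 ≤ lam) (H2 : lam ^ (10 * K + 5) ≤ n)
    (H3 : σ * lam ^ (5 * K + 4) ≤ n) : False := by
  classical
  have hKK : K ≤ K ^ 2 := Nat.le_self_pow (by norm_num) K
  have hlam : 4325376 ≤ lam := by omega
  have hlam0 : 0 < lam := by omega
  have hl3 : lam ^ 3 ≤ n := (Nat.pow_le_pow_right hlam0 (by omega)).trans H2
  have hn2 : 2 ≤ n := le_trans (by omega) ((Nat.le_self_pow (by norm_num) lam).trans hl3)
  have hs0 : 0 < s := by
    rcases Nat.eq_zero_or_pos s with h | h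
    · rw [h, mul_zero] at heq; omega
    · exact h
  have he : ∀ q ∈ F, e q ≤ n := by
    intro q hqF
    by_contra hc
    have h1 : q ^ e q ∣ n ! + 1 := by
      rw [heq]; exact (Finset.dvd_prod_of_mem (fun q => q ^ e q) hqF).mul_right s
    have h2 := Nat.le_of_dvd (by positivity) h1
    have h3 : (n + 1) ^ (n + 1) ≤ q ^ e q :=
      (Nat.pow_le_pow_left (hq q hqF).2.1 _).trans
        (Nat.pow_le_pow_right (by have := (hq q hqF).2.1; omega) (by omega))
    have h4 := Nat.factorial_le_pow (n + 1)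
    rw [Nat.factorial_succ] at h4
    have h5 := Nat.factorial_pos n
    nlinarith
  obtain ⟨D, hD⟩ : ∃ D, D = lam ^ 5 := ⟨_, rfl⟩
  have hD0 : 0 < D := by rw [hD]; positivity
  obtain ⟨c, hc1, hcQ, ci, hci⟩ := dirichlet K n D (by omega) hD0 F hF e
  have hcic : ∀ q ∈ F, ci q ≤ c := by
    intro q hqF
    by_contra hc
    have h1 := (hci q hqF).2
    have h2 : n * (c + 1) * D ≤ n * ci q * D :=
      Nat.mul_le_mul_right _ (Nat.mul_le_mul_left _ (by omega))
    have h3 : c * e q * D ≤ c * n * D := Nat.mul_le_mul_right _ (Nat.mul_le_mul_left _ (he q hqF))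
    have h4 : n * (c + 1) * D = c * n * D + n * D := by ring
    have h5 : n ≤ n * D := Nat.le_mul_of_pos_right _ hD0
    omega
  obtain ⟨g, hg⟩ : ∃ g, g = n / c := ⟨_, rfl⟩
  obtain ⟨ρ, hρ⟩ : ∃ ρ, ρ = n / (D * c) + c := ⟨_, rfl⟩
  have hr : ∀ q ∈ F, e q - g * ci q ≤ ρ ∧ g * ci q - e q ≤ ρ := fun q hqF => by
    rw [hg, hρ]
    exact rem_le hc1 hD0 (hcic q hqF) (hci q hqF).1 (hci q hqF).2
  obtain ⟨α, hα⟩ : ∃ α, α = ∏ q ∈ F, q ^ ci q := ⟨_, rfl⟩
  obtain ⟨u, hu⟩ : ∃ u, u = (∏ q ∈ F, q ^ (e q - g * ci q)) * s := ⟨_, rfl⟩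
  obtain ⟨v, hv⟩ : ∃ v, v = ∏ q ∈ F, q ^ (g * ci q - e q) := ⟨_, rfl⟩
  obtain ⟨a, ha⟩ : ∃ a, a = K * lam * c := ⟨_, rfl⟩
  obtain ⟨h, hh⟩ : ∃ h, h = K * lam * ρ + σ := ⟨_, rfl⟩
  have hq2 : ∀ q ∈ F, q ≤ 2 ^ lam := fun q hqF => (hq q hqF).2.2
  have hqpos : ∀ q ∈ F, 0 < q := fun q hqF => by have := (hq q hqF).2.1; omega
  have hαa : α ≤ 2 ^ a := by rw [hα, ha]; exact prod_pow_le F K lam c hF hq2 ci hcic
  have huh : u ≤ 2 ^ h := by
    rw [hu, hh, pow_add]
    exact Nat.mul_le_mul (prod_pow_le F K lam ρ hF hq2 _ fun q hqF => (hr q hqF).1) hs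
  have hvh : v ≤ 2 ^ h := by
    rw [hv, hh]
    exact (prod_pow_le F K lam ρ hF hq2 _ fun q hqF => (hr q hqF).2).trans
      (Nat.pow_le_pow_right (by norm_num) (Nat.le_add_right _ _))
  have hu0 : 0 < u := by
    rw [hu]; exact Nat.mul_pos (Finset.prod_pos fun q hqF => pow_pos (hqpos q hqF) _) hs0
  have hv0 : 0 < v := by
    rw [hv]; exact Finset.prod_pos fun q hqF => pow_pos (hqpos q hqF) _
  have hαodd : Odd α := by
    rw [hα]
    exact Finset.prod_induction _ Odd (fun x y hx hy => hx.mul hy) odd_one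
      fun q hqF => (hq q hqF).1.pow
  have hrel : α ^ g * u = v * (n ! + 1) := by
    rw [heq, hα, hu, hv, ← mul_assoc, ← mul_assoc, ← Finset.prod_pow, ← Finset.prod_mul_distrib,
      ← Finset.prod_mul_distrib]
    congr 1
    refine Finset.prod_congr rfl fun q _ => ?_
    rw [← pow_mul, ← pow_add, ← pow_add, mul_comm (ci q) g]
    congr 1
    omega
  have hKl : 1 ≤ K * lam := Nat.mul_pos hK hlam0
  have hca : c ≤ a := by rw [ha]; exact Nat.le_mul_of_pos_left _ hKl
  have hh1 : 1 ≤ h := by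
    have hρ1 : 1 ≤ ρ := by rw [hρ]; exact hc1.trans (Nat.le_add_left _ _)
    have : 1 ≤ K * lam * ρ := Nat.mul_pos hKl hρ1
    omega
  have hQ : D ^ K = lam ^ (5 * K) := by rw [hD, ← pow_mul]
  have hcρ : c * ρ ≤ n / D + c * c := by
    rw [hρ, mul_add, ← Nat.div_div_eq_div_mul]
    exact Nat.add_le_add_right (Nat.mul_div_le _ _) _
  have N1 : 135168 * (2 * lam) ^ 2 * (a * h) ≤ n / 2 := by
    have t1 : 4325376 * K * lam ^ 3 * (c * σ) ≤ n := by
      calc 4325376 * K * lam ^ 3 * (c * σ) ≤ lam * lam ^ 3 * (lam ^ (5 * K) * σ) :=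
            Nat.mul_le_mul (Nat.mul_le_mul_right _ (by omega))
              (Nat.mul_le_mul_right _ (hQ ▸ hcQ))
        _ = σ * lam ^ (5 * K + 4) := by ring
        _ ≤ n := H3
    have t2 : 4325376 * K ^ 2 * lam ^ 4 * (n / D) ≤ n := by
      calc 4325376 * K ^ 2 * lam ^ 4 * (n / D) ≤ lam * lam ^ 4 * (n / D) :=
            Nat.mul_le_mul_right _ (Nat.mul_le_mul_right _ H1)
        _ = D * (n / D) := by rw [hD]; ring
        _ ≤ n := Nat.mul_div_le _ _
    have t3 : 4325376 * K ^ 2 * lam ^ 4 * (c * c) ≤ n := by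
      calc 4325376 * K ^ 2 * lam ^ 4 * (c * c)
          ≤ lam * lam ^ 4 * (lam ^ (5 * K) * lam ^ (5 * K)) :=
            Nat.mul_le_mul (Nat.mul_le_mul_right _ H1) (Nat.mul_le_mul (hQ ▸ hcQ) (hQ ▸ hcQ))
        _ = lam ^ (10 * K + 5) := by ring
        _ ≤ n := H2
    have t4 : 4325376 * K ^ 2 * lam ^ 4 * (c * ρ) ≤ 2 * n := by
      have := Nat.mul_le_mul_left (4325376 * K ^ 2 * lam ^ 4) hcρ
      rw [mul_add] at this
      omega
    have t5 : 8 * (135168 * (2 * lam) ^ 2 * (a * h)) =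
        4325376 * K ^ 2 * lam ^ 4 * (c * ρ) + 4325376 * K * lam ^ 3 * (c * σ) := by
      rw [ha, hh]; ring
    omega
  have hbig : 512 * (2 * lam) * h * c ≤ 135168 * (2 * lam) ^ 2 * (a * h) := by
    calc 512 * (2 * lam) * h * c = (512 * (2 * lam)) * (c * h) := by ring
      _ ≤ (135168 * (2 * lam) ^ 2) * (a * h) :=
        Nat.mul_le_mul (Nat.mul_le_mul (by norm_num) (Nat.le_self_pow (by norm_num) _))
          (Nat.mul_le_mul_right _ hca)
  have hhn : h ≤ n / 2 := by
    have : h ≤ 512 * (2 * lam) * h * c := by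
      calc h = 1 * h * 1 := by ring
        _ ≤ 512 * (2 * lam) * h * c :=
          Nat.mul_le_mul (Nat.mul_le_mul_right _ (by omega)) hc1
    omega
  by_cases h1 : 1 < α
  · refine twolog α u v g a h (2 * lam) hαodd h1 hαa hu0 hv0 huh hvh hh1 (by omega) ?_ ?_ ?_
    · rw [hg, Nat.le_div_iff_mul_le hc1]
      omega
    · have t1 : a * g ≤ K * lam * n := by
        rw [ha, hg, mul_assoc]
        exact Nat.mul_le_mul_left _ (Nat.mul_div_le _ _)
      have t2 : n ≤ K * lam * n := Nat.le_mul_of_pos_left _ hKl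
      calc 528 * (2 * lam) * (h + a * g) ≤ 528 * (2 * lam) * (2 * (K * lam * n)) :=
            Nat.mul_le_mul_left _ (by omega)
        _ = (2112 * K) * lam ^ 2 * n := by ring
        _ ≤ lam * lam ^ 2 * n := Nat.mul_le_mul_right _ (Nat.mul_le_mul_right _ (by omega))
        _ = lam ^ 3 * n := by ring
        _ ≤ 2 ^ lam * 2 ^ lam := Nat.mul_le_mul (hl3.trans hn) hn
        _ = 2 ^ (2 * lam) := by rw [← pow_add]; congr 1; ring
    · have t1 : ((α : ℤ) ^ g * u) = v * ((n ! : ℕ) + 1) := by exact_mod_cast hrel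
      have t2 : (α : ℤ) ^ g * u - v = v * (n ! : ℕ) := by rw [t1]; ring
      rw [t2]
      have t3 : 2 ^ (135168 * (2 * lam) ^ 2 * (a * h)) ∣ n ! :=
        (pow_dvd_pow 2 N1).trans (two_pow_dvd_factorial n)
      exact Dvd.dvd.mul_left (by exact_mod_cast t3) _
  · have hα1 : α = 1 := by
      have := hαodd.pos
      omega
    rw [hα1, one_pow, one_mul] at hrel
    have t1 : n ! + 1 ≤ u := by rw [hrel]; exact Nat.le_mul_of_pos_left _ hv0
    have t2 : 2 ^ (n / 2) ≤ n ! := Nat.le_of_dvd (Nat.factorial_pos n) (two_pow_dvd_factorial n)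
    have t3 : 2 ^ h ≤ 2 ^ (n / 2) := Nat.pow_le_pow_right (by norm_num) hhn
    omega

end Pool.Agent.P.MP_8e1b3573_nt
end

-- part Pool.Agent.P.MP_8e1b3573_nt.Own
section

set_option autoImplicit false

namespace Pool.Agent.P.MP_8e1b3573_nt

open Finset Nat

theorem lt_of_prime_dvd {n q : ℕ} (hq : q.Prime) (h : q ∣ n ! + 1) : n < q := by
  by_contra hc
  have h1 : q ∣ n ! := (hq.dvd_factorial).2 (by omega)
  exact hq.one_lt.ne' (Nat.dvd_one.1 ((Nat.dvd_add_right h1).1 h))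

/-- A prime power dividing two shifted factorials forces a gap. -/
theorem gap {n n' q k : ℕ} (hq : q.Prime) (hn : 1 ≤ n) (hlt : n < n') (hk : 1 ≤ k)
    (h1 : q ^ k ∣ n ! + 1) (h2 : q ^ k ∣ n' ! + 1) : n + k < n' := by
  obtain ⟨d, rfl⟩ := Nat.exists_eq_add_of_le hlt.le
  have hd : 1 ≤ d := by omega
  have hq' : n + d < q := lt_of_prime_dvd hq ((dvd_pow_self q (by omega)).trans h2)
  have e := Nat.factorial_mul_ascFactorial n d
  obtain ⟨P, hP⟩ : ∃ P, P = (n + 1).ascFactorial d := ⟨_, rfl⟩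
  have hP1 : P ≤ (n + d) ^ d := hP ▸ Nat.ascFactorial_le_pow_add n d
  have hP2 : 2 ≤ P := by
    have h3 : (n + 1) ^ d ≤ P := hP ▸ Nat.pow_succ_le_ascFactorial (n + 1) d
    have h4 : n + 1 ≤ (n + 1) ^ d := Nat.le_self_pow (by omega) _
    omega
  rw [← hP] at e
  have h3 : q ^ k ∣ P - 1 := by
    have h4 : (n ! + 1) * P = ((n + d)! + 1) + (P - 1) := by
      rw [add_mul, e]; omega
    exact (Nat.dvd_add_right h2).1 (h4 ▸ h1.mul_right P)
  have h4 := Nat.le_of_dvd (by omega) h3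
  have h5 : (n + d) ^ d ≤ q ^ d := Nat.pow_le_pow_left hq'.le _
  have h6 : q ^ k < q ^ d := by omega
  have := (Nat.pow_lt_pow_iff_right hq.one_lt).1 h6
  omega

theorem card_le_of_gap (S : Finset ℕ) (q R d : ℕ) (hd : 0 < d)
    (hS : ∀ n ∈ S, n < q ∧ q ≤ n + R) (hgap : ∀ n ∈ S, ∀ n' ∈ S, n < n' → n + d ≤ n') :
    S.card ≤ R / d + 1 := by
  have key : ∀ n ∈ S, ∀ n' ∈ S, n < n' → (q - n') / d < (q - n) / d := by
    intro n hn n' hn' hlt
    have h1 := hgap n hn n' hn' hlt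
    have h2 := (hS n' hn').1
    calc (q - n') / d < (q - n') / d + 1 := Nat.lt_succ_self _
      _ = (q - n' + d) / d := (Nat.add_div_right _ hd).symm
      _ ≤ (q - n) / d := Nat.div_le_div_right (by omega)
  rw [← Finset.card_range (R / d + 1)]
  refine Finset.card_le_card_of_injOn (fun n => (q - n) / d) (fun n hn => ?_) ?_
  · have := (hS n hn).2
    simp only [Finset.coe_range, Set.mem_Iio]
    exact Nat.lt_succ_of_le (Nat.div_le_div_right (by omega))
  · intro n hn n' hn' he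
    simp only at he
    rcases lt_trichotomy n n' with h | h | h
    · have := key n hn n' hn' h; omega
    · exact h
    · have := key n' hn' n hn h; omega

theorem harm_le (R L : ℕ) (hL : 1 ≤ L) (h : R ≤ 2 ^ L) :
    ∑ k ∈ range R, R / (k + 1) ≤ 2 * R * L := by
  rcases Nat.eq_zero_or_pos R with h0 | h0
  · subst h0; simp
  have h1 : ((∑ k ∈ range R, R / (k + 1) : ℕ) : ℝ) ≤ R * (harmonic R : ℝ) := by
    rw [harmonic]
    push_cast
    rw [Finset.mul_sum]
    refine Finset.sum_le_sum fun k _ => ?_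
    have := Nat.cast_div_le (α := ℝ) (m := R) (n := k + 1)
    push_cast at this
    rwa [div_eq_mul_inv] at this
  have h2 := harmonic_le_one_add_log R
  have hR : (0 : ℝ) < R := by exact_mod_cast h0
  have h3 : Real.log R ≤ L := by
    have h4 : (R : ℝ) ≤ 2 ^ L := by exact_mod_cast h
    have h5 := Real.log_le_log hR h4
    rw [Real.log_pow] at h5
    have h6 : Real.log 2 ≤ 1 := by have := Real.log_two_lt_d9; linarith
    have h7 : (0 : ℝ) ≤ L := Nat.cast_nonneg _
    nlinarith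
  have hL' : (1 : ℝ) ≤ L := by exact_mod_cast hL
  have h4 : ((∑ k ∈ range R, R / (k + 1) : ℕ) : ℝ) ≤ ((2 * R * L : ℕ) : ℝ) := by
    refine h1.trans ?_
    push_cast
    nlinarith
  exact_mod_cast h4

/-- The exponent of `q` in `n! + 1`. -/
def V (n q : ℕ) : ℕ := (n ! + 1).factorization q

theorem pow_dvd_of_le_V {n q k : ℕ} (hq : q.Prime) (h : k ≤ V n q) : q ^ k ∣ n ! + 1 :=
  (hq.pow_dvd_iff_le_factorization (by positivity)).2 h

theorem nonowner (B : Finset ℕ) (q R L o : ℕ) (hq : q.Prime) (hL : 1 ≤ L) (hR : R ≤ 2 ^ L)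
    (hB : ∀ n ∈ B, 1 ≤ n ∧ (q ∣ n ! + 1 → q ≤ n + R)) (ho : o ∈ B)
    (hmax : ∀ n ∈ B, V n q ≤ V o q) :
    ∑ n ∈ B.erase o, V n q ≤ 2 * R * L := by
  classical
  have hwin : ∀ n ∈ B, ∀ k, k < V n q → n < q ∧ q ≤ n + R := by
    intro n hn k hk
    have h1 : q ∣ n ! + 1 := by
      have := pow_dvd_of_le_V (n := n) (k := 1) hq (by omega)
      rwa [pow_one] at this
    exact ⟨lt_of_prime_dvd hq h1, (hB n hn).2 h1⟩
  have hgap : ∀ k, ∀ n ∈ B, ∀ n' ∈ B, k < V n q → k < V n' q → n < n' → n + (k + 1) < n' :=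
    fun k n hn n' _ h1 h2 h3 => gap hq (hB n hn).1 h3 (by omega) (pow_dvd_of_le_V hq h1)
      (pow_dvd_of_le_V hq h2)
  have hVR : ∀ n ∈ B.erase o, V n q ≤ R := by
    intro n hn
    obtain ⟨hne, hnB⟩ := Finset.mem_erase.1 hn
    by_contra hc
    have h1 : R < V n q := by omega
    have h2 : R < V o q := lt_of_lt_of_le h1 (hmax n hnB)
    have h3 := hwin n hnB R h1
    have h4 := hwin o ho R h2
    rcases lt_or_gt_of_ne hne with h | h
    · have := hgap R n hnB o ho h1 h2 h; omega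
    · have := hgap R o ho n hnB h2 h1 h; omega
  have e1 : ∑ n ∈ B.erase o, V n q =
      ∑ k ∈ range R, ((B.erase o).filter fun n => k < V n q).card := by
    simp only [Finset.card_filter]
    rw [Finset.sum_comm]
    refine Finset.sum_congr rfl fun n hn => ?_
    rw [← Finset.card_filter]
    have : (range R).filter (fun k => k < V n q) = range (V n q) := by
      ext k
      have := hVR n hn
      simp only [Finset.mem_filter, Finset.mem_range]
      omega
    rw [this, Finset.card_range]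
  rw [e1]
  refine le_trans (Finset.sum_le_sum fun k _ => ?_) (harm_le R L hL hR)
  rcases ((B.erase o).filter fun n => k < V n q).eq_empty_or_nonempty with h | ⟨n, hn⟩
  · rw [h]; simp
  · obtain ⟨hn1, hn2⟩ := Finset.mem_filter.1 hn
    have hko : k < V o q := lt_of_lt_of_le hn2 (hmax n (Finset.mem_of_mem_erase hn1))
    have h1 := card_le_of_gap (B.filter fun n => k < V n q) q R (k + 1) (by omega)
      (fun n hn => hwin n (Finset.mem_filter.1 hn).1 k (Finset.mem_filter.1 hn).2)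
      (fun n hn n' hn' h => (hgap k n (Finset.mem_filter.1 hn).1 n' (Finset.mem_filter.1 hn').1
        (Finset.mem_filter.1 hn).2 (Finset.mem_filter.1 hn').2 h).le)
    rw [Finset.filter_erase, Finset.card_erase_of_mem (Finset.mem_filter.2 ⟨ho, hko⟩)]
    exact Nat.sub_le_of_le_add h1

/-- The counting statement. -/
theorem count (K X R x0 L : ℕ) (hK : 1 ≤ K) (B : Finset ℕ)
    (hB : ∀ n ∈ B, x0 ≤ n ∧ n ≤ X ∧ ∀ q, q.Prime → q ∣ n ! + 1 → q ≤ n + R)
    (hXL : X + R ≤ 2 ^ L) (H1 : 4325376 * K ^ 2 ≤ L) (H2 : L ^ (10 * K + 5) ≤ x0) :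
    ∃ b1 b2 : ℕ, B.card = b1 + b2 ∧ (K + 1) * b1 ≤ Nat.primeCounting (X + R) ∧
      b2 * x0 ≤ 2 * Nat.primeCounting (X + R) * R * L ^ (5 * K + 6) := by
  classical
  rcases B.eq_empty_or_nonempty with h | hne
  · exact ⟨0, 0, by simp [h], by simp, by simp⟩
  have hKK : K ≤ K ^ 2 := Nat.le_self_pow (by norm_num) K
  have hL : 2 ≤ L := by omega
  have hx0 : 2 ≤ x0 := hL.trans ((Nat.le_self_pow (by omega) L).trans H2)
  choose o ho hmax using fun q => Finset.exists_max_image B (fun n => V n q) hne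
  set Q : Finset ℕ := (range (X + R + 1)).filter Nat.Prime with hQ
  have hQc : Q.card = Nat.primeCounting (X + R) := by
    rw [hQ, Nat.primeCounting, Nat.primeCounting', Nat.count_eq_card_filter_range]
  rw [← hQc]
  let own : ℕ → Finset ℕ := fun n => (n ! + 1).primeFactors.filter fun q => o q = n
  have hsub : ∀ n ∈ B, (n ! + 1).primeFactors ⊆ Q := by
    intro n hn q hq
    have h1 := Nat.prime_of_mem_primeFactors hq
    have h2 := (hB n hn).2.2 q h1 (Nat.dvd_of_mem_primeFactors hq)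
    have h3 := (hB n hn).2.1
    exact Finset.mem_filter.2 ⟨Finset.mem_range.2 (by omega), h1⟩
  refine ⟨(B.filter fun n => K < (own n).card).card, (B.filter fun n => ¬ K < (own n).card).card,
    (Finset.card_filter_add_card_filter_not _).symm, ?_, ?_⟩
  · have h1 : ((B.filter fun n => K < (own n).card).biUnion own).card =
        ∑ n ∈ B.filter fun n => K < (own n).card, (own n).card := by
      refine Finset.card_biUnion fun n _ n' _ hnn => ?_
      refine Finset.disjoint_left.2 fun q h1 h2 => hnn ?_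
      exact (Finset.mem_filter.1 h1).2.symm.trans (Finset.mem_filter.1 h2).2
    have h2 : (B.filter fun n => K < (own n).card).biUnion own ⊆ Q := by
      refine Finset.biUnion_subset.2 fun n hn => ?_
      exact (Finset.filter_subset _ _).trans (hsub n (Finset.mem_filter.1 hn).1)
    have h3 := Finset.card_le_card h2
    rw [h1] at h3
    refine le_trans ?_ h3
    rw [mul_comm, ← smul_eq_mul]
    exact Finset.card_nsmul_le_sum _ _ _ fun n hn => (Finset.mem_filter.1 hn).2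
  · let w : ℕ → ℕ := fun n => ∑ q ∈ Q.filter fun q => ¬ o q = n, V n q
    have h1 : ∀ n ∈ B.filter fun n => ¬ K < (own n).card, x0 ≤ w n * L ^ (5 * K + 5) := by
      intro n hn
      obtain ⟨hnB, hnK⟩ := Finset.mem_filter.1 hn
      obtain ⟨b1, b2, b3⟩ := hB n hnB
      by_contra hc
      have hq2 : ∀ q ∈ (n ! + 1).primeFactors, q ≤ 2 ^ L := fun q hq => by
        have := b3 q (Nat.prime_of_mem_primeFactors hq) (Nat.dvd_of_mem_primeFactors hq)
        omega
      refine many K n L (L * w n)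
        (∏ q ∈ (n ! + 1).primeFactors.filter (fun q => ¬ o q = n), q ^ V n q) hK (own n)
        (by omega) (V n) (fun q hq => ?_) ?_ ?_ (by omega) H1 (H2.trans b1) ?_
      · have h2 := (Finset.mem_filter.1 hq).1
        have h3 := Nat.prime_of_mem_primeFactors h2
        have h4 := lt_of_prime_dvd h3 (Nat.dvd_of_mem_primeFactors h2)
        exact ⟨h3.odd_of_ne_two (by omega), h4, hq2 q h2⟩
      · calc ∏ q ∈ (n ! + 1).primeFactors.filter (fun q => ¬ o q = n), q ^ V n q
            ≤ ∏ q ∈ (n ! + 1).primeFactors.filter (fun q => ¬ o q = n), (2 ^ L) ^ V n q :=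
              Finset.prod_le_prod' fun q hq =>
                Nat.pow_le_pow_left (hq2 q (Finset.mem_filter.1 hq).1) _
          _ = (2 ^ L) ^ ∑ q ∈ (n ! + 1).primeFactors.filter (fun q => ¬ o q = n), V n q :=
              Finset.prod_pow_eq_pow_sum _ _ _
          _ ≤ (2 ^ L) ^ w n := Nat.pow_le_pow_right (by positivity)
              (Finset.sum_le_sum_of_subset (Finset.filter_subset_filter _ (hsub n hnB)))
          _ = 2 ^ (L * w n) := by rw [← pow_mul]
      · rw [Finset.prod_filter_mul_prod_filter_not]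
        exact (Nat.prod_factorization_pow_eq_self (n := n ! + 1) (by positivity)).symm
      · have e : L * w n * L ^ (5 * K + 4) = w n * L ^ (5 * K + 5) := by ring
        omega
    have h2 : ∑ n ∈ B, w n ≤ Q.card * (2 * R * L) := by
      have e : ∑ n ∈ B, w n = ∑ q ∈ Q, ∑ n ∈ B.erase (o q), V n q := by
        simp only [w, Finset.sum_filter]
        rw [Finset.sum_comm]
        refine Finset.sum_congr rfl fun q _ => ?_
        rw [← Finset.sum_filter, ← Finset.filter_ne]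
      rw [e, ← smul_eq_mul]
      refine Finset.sum_le_card_nsmul _ _ _ fun q hq => ?_
      have hqp := (Finset.mem_filter.1 hq).2
      exact nonowner B q R L (o q) hqp (by omega) (by omega)
        (fun n hn => ⟨by have := (hB n hn).1; omega, (hB n hn).2.2 q hqp⟩) (ho q) (hmax q)
    calc (B.filter fun n => ¬ K < (own n).card).card * x0
        ≤ ∑ n ∈ B.filter fun n => ¬ K < (own n).card, w n * L ^ (5 * K + 5) := by
          rw [← smul_eq_mul]
          exact Finset.card_nsmul_le_sum _ _ _ h1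
      _ ≤ ∑ n ∈ B, w n * L ^ (5 * K + 5) :=
          Finset.sum_le_sum_of_subset (Finset.filter_subset _ _)
      _ = (∑ n ∈ B, w n) * L ^ (5 * K + 5) := (Finset.sum_mul _ _ _).symm
      _ ≤ Q.card * (2 * R * L) * L ^ (5 * K + 5) := Nat.mul_le_mul_right _ h2
      _ = 2 * Q.card * R * L ^ (5 * K + 6) := by ring

end Pool.Agent.P.MP_8e1b3573_nt
end

-- part Pool.Agent.P.MP_8e1b3573_nt.Main
section

set_option autoImplicit false

namespace Pool.Agent.P.MP_8e1b3573_nt

open Finset Nat Filter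

/-- The binary length, plus a margin. -/
def LL (X : ℕ) : ℕ := Nat.log 2 X + 2

theorem two_mul_le_pow (X : ℕ) : 2 * X ≤ 2 ^ LL X := by
  have h := Nat.lt_pow_succ_log_self (b := 2) (by norm_num) X
  unfold LL
  rw [pow_succ] at h
  rw [pow_add]
  omega

theorem tendsto_log : Tendsto (Nat.log 2) atTop atTop := by
  refine tendsto_atTop_atTop.2 fun b => ⟨2 ^ b, fun X hX => ?_⟩
  exact Nat.le_log_of_pow_le (by norm_num) hX

theorem ev_LL (C : ℕ) : ∀ᶠ X : ℕ in atTop, C ≤ LL X :=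
  (tendsto_log.eventually_ge_atTop C).mono fun _ h => h.trans (Nat.le_add_right _ _)

theorem ev_pow (N : ℕ) : ∀ᶠ X : ℕ in atTop, LL X ^ N ≤ X := by
  have h1 := tendsto_pow_const_div_const_pow_of_one_lt N (r := 2) (by norm_num)
  have h2 := (h1.comp (tendsto_add_atTop_nat 2)).eventually_le_const
    (show (0 : ℝ) < 1 / 4 by norm_num)
  filter_upwards [tendsto_log.eventually h2, eventually_ge_atTop 1] with X h hX
  simp only [Function.comp] at h
  rw [div_le_iff₀ (by positivity), pow_add] at h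
  have h3 : ((LL X ^ N : ℕ) : ℝ) ≤ ((2 ^ Nat.log 2 X : ℕ) : ℝ) := by
    unfold LL
    push_cast at h ⊢
    linarith
  exact (Nat.cast_le.1 h3).trans (Nat.pow_log_le_self 2 (by omega))

theorem le_pi {X : ℕ} (h2 : 2 ≤ X) (h : LL X ^ 2 ≤ X) : X ≤ 2 * LL X * Nat.primeCounting X := by
  have h1 := Chebyshev.pi_ge X
  have hL : 2 ≤ LL X := Nat.le_add_left _ _
  have hXR : (2 : ℝ) ≤ X := by exact_mod_cast h2
  have hl : 0 < Real.log X := Real.log_pos (by linarith)
  have hl2 : 0 < Real.log 2 := Real.log_pos (by norm_num)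
  have h3 : (2 * X : ℝ) ≤ 2 ^ LL X := by exact_mod_cast two_mul_le_pow X
  have h4 : Real.log (X + 1) ≤ LL X * Real.log 2 := by
    rw [← Real.log_pow]
    exact Real.log_le_log (by linarith) (by linarith)
  have h5 : Real.log X ≤ LL X * Real.log 2 :=
    (Real.log_le_log (by linarith) (by linarith)).trans h4
  have h6 : (2 * LL X : ℝ) ≤ X := by
    have : 2 * LL X ≤ X := le_trans (by nlinarith) h
    exact_mod_cast this
  rw [div_le_iff₀ hl] at h1
  have h7 := mul_le_mul_of_nonneg_left h5 (Nat.cast_nonneg (α := ℝ) (Nat.primeCounting X))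
  have h8 : (X : ℝ) * Real.log 2 ≤ (2 * LL X * Nat.primeCounting X) * Real.log 2 := by
    nlinarith
  exact_mod_cast le_of_mul_le_mul_right h8 hl2

theorem pi_add_le (X R : ℕ) : Nat.primeCounting (X + R) ≤ Nat.primeCounting X + R := by
  unfold Nat.primeCounting Nat.primeCounting'
  rw [show X + R + 1 = X + 1 + R by ring, Nat.count_add]
  exact Nat.add_le_add_left (Nat.count_le _) _

theorem log_big {X n A : ℕ} (hL : 4 * 4 ^ A ≤ LL X) (h : LL X ^ 4 ≤ X) (hn : X / LL X ^ 2 < n) :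
    (LL X : ℝ) ^ A ≤ Real.log n ^ (A + 1) := by
  have hL2 : 2 ≤ LL X := Nat.le_add_left _ _
  have h4 : 1 ≤ 4 ^ A := Nat.one_le_pow _ _ (by norm_num)
  have hX0 : X ≠ 0 := by
    have : 0 < LL X ^ 4 := by positivity
    omega
  have h1 : LL X ^ 2 ≤ X / LL X ^ 2 := by
    rw [Nat.le_div_iff_mul_le (by positivity), ← pow_add]; exact h
  have h2 : X < n * LL X ^ 2 := (Nat.div_lt_iff_lt_mul (by positivity)).1 hn
  have h3 : 2 ^ Nat.log 2 X ≤ n ^ 2 := by
    have := Nat.pow_log_le_self 2 hX0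
    have h5 : n * LL X ^ 2 ≤ n * n := Nat.mul_le_mul_left _ (by omega)
    rw [pow_two]
    omega
  have h5 : (Nat.log 2 X : ℝ) * Real.log 2 ≤ 2 * Real.log n := by
    have h6 : ((2 : ℝ) ^ Nat.log 2 X) ≤ (n : ℝ) ^ 2 := by exact_mod_cast h3
    have h7 := Real.log_le_log (by positivity) h6
    rw [Real.log_pow, Real.log_pow] at h7
    exact_mod_cast h7
  have h6 : (LL X : ℝ) = Nat.log 2 X + 2 := by unfold LL; push_cast; ring
  have h7 : (4 * 4 ^ A : ℝ) ≤ LL X := by exact_mod_cast hL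
  by_cases hA : A = 0
  · subst hA
    have := Real.log_two_gt_d9
    simp only [pow_zero, zero_add, pow_one] at h7 ⊢
    have h8 : 4 * 4 ^ 0 ≤ LL X := hL
    have h9 : (3 : ℝ) ≤ n := by
      have : 3 ≤ n := by nlinarith
      exact_mod_cast this
    rw [Real.le_log_iff_exp_le (by linarith)]
    exact Real.exp_one_lt_d9.le.trans (by linarith)
  have h8 : (4 : ℝ) ≤ 4 ^ A := le_self_pow₀ (by norm_num) hA
  have h9 : (LL X : ℝ) ≤ 4 * Real.log n := by
    have := Real.log_two_gt_d9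
    nlinarith
  have h10 : (4 : ℝ) ^ A ≤ Real.log n := by linarith
  calc (LL X : ℝ) ^ A ≤ (4 * Real.log n) ^ A := pow_le_pow_left₀ (by positivity) h9 A
    _ = 4 ^ A * Real.log n ^ A := mul_pow _ _ _
    _ ≤ Real.log n * Real.log n ^ A :=
        mul_le_mul_of_nonneg_right h10 (pow_nonneg (by linarith) _)
    _ = Real.log n ^ (A + 1) := by ring

open Classical in
/-- The statement for all integers `n`. -/
theorem main (K : ℕ) (hK : 1 ≤ K) (δ : ℝ) (hδ : 0 < δ) : ∀ᶠ X : ℕ in atTop,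
    (((Icc 1 X).filter fun m : ℕ => ∀ q : ℕ, q.Prime → q ∣ (m - 1)! + 1 →
      (q : ℝ) ≤ m + m / Real.log m ^ (5 * K + 10)).card : ℝ) ≤
      (1 / (K + 1) + δ) * Nat.primeCounting X := by
  filter_upwards [ev_LL (4325376 * K ^ 2), ev_LL (4 * 4 ^ (5 * K + 9)), ev_LL ⌈24 / δ⌉₊,
    ev_pow (10 * K + 7)] with X H1 H2 H3 H4
  obtain ⟨L, hL⟩ : ∃ L, L = LL X := ⟨_, rfl⟩
  have hlog := fun n => log_big (X := X) (n := n) H2
  have hpi := le_pi (X := X)
  have h2X := two_mul_le_pow X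
  rw [← hL] at H1 H2 H3 H4 hlog hpi h2X
  have hL4 : 4 ≤ L := le_trans (Nat.le_mul_of_pos_right _ (by positivity)) H2
  have hpw : ∀ j, j ≤ 10 * K + 7 → L ^ j ≤ X := fun j hj =>
    (Nat.pow_le_pow_right (by omega) hj).trans H4
  have hX2 : 2 ≤ X := le_trans (by omega) ((pow_one L).ge.trans (hpw 1 (by omega)))
  replace hpi := hpi hX2 (hpw 2 (by omega))
  obtain ⟨x0, hx0⟩ : ∃ x0, x0 = X / L ^ 2 := ⟨_, rfl⟩
  obtain ⟨R, hR⟩ : ∃ R, R = X / L ^ (5 * K + 9) + 1 := ⟨_, rfl⟩
  obtain ⟨P, hP⟩ : ∃ P, P = Nat.primeCounting X := ⟨_, rfl⟩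
  rw [← hP] at hpi ⊢
  have hL2 : 0 < L ^ 2 := by positivity
  have hLA : 0 < L ^ (5 * K + 9) := by positivity
  have hx1 : L ^ (10 * K + 5) ≤ x0 := by
    rw [hx0, Nat.le_div_iff_mul_le hL2, ← pow_add]; exact H4
  have hx2 : x0 * L ^ 2 ≤ X := hx0 ▸ Nat.div_mul_le_self _ _
  have hx3 : X ≤ 2 * (x0 * L ^ 2) := by
    have h1 : X < (x0 + 1) * L ^ 2 := (Nat.div_lt_iff_lt_mul hL2).1 (by omega)
    have h2 : 1 ≤ x0 := le_trans (Nat.one_le_pow _ _ (by omega)) hx1
    have h3 : L ^ 2 ≤ x0 * L ^ 2 := Nat.le_mul_of_pos_left _ h2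
    rw [add_mul] at h1
    omega
  have hR1 : R * L ^ (5 * K + 9) ≤ 2 * X := by
    have h1 := Nat.div_mul_le_self X (L ^ (5 * K + 9))
    have h2 := hpw (5 * K + 9) (by omega)
    rw [hR, add_mul]
    omega
  have hR2 : R * L ^ 2 ≤ 2 * X :=
    (Nat.mul_le_mul_left _ (Nat.pow_le_pow_right (by omega) (by omega))).trans hR1
  have hx4 : x0 * L ≤ 2 * P := by
    refine Nat.le_of_mul_le_mul_right (c := L) ?_ (by omega)
    calc x0 * L * L = x0 * L ^ 2 := by ring
      _ ≤ 2 * L * P := hx2.trans hpi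
      _ = 2 * P * L := by ring
  have hR3 : R * L ≤ 4 * P := by
    refine Nat.le_of_mul_le_mul_right (c := L) ?_ (by omega)
    calc R * L * L = R * L ^ 2 := by ring
      _ ≤ 2 * (2 * L * P) := hR2.trans (Nat.mul_le_mul_left 2 hpi)
      _ = 4 * P * L := by ring
  have hR4 : R ≤ P := by
    have : R * 4 ≤ R * L := Nat.mul_le_mul_left _ hL4
    omega
  have hR5 : R ≤ X := by
    have h1 : 4 ^ 2 ≤ L ^ 2 := Nat.pow_le_pow_left hL4 2
    have : R * 4 ^ 2 ≤ R * L ^ 2 := Nat.mul_le_mul_left _ h1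
    omega
  obtain ⟨S, hS⟩ : ∃ S, S = (Icc 1 X).filter fun m : ℕ => ∀ q : ℕ, q.Prime → q ∣ (m - 1)! + 1 →
      (q : ℝ) ≤ m + m / Real.log m ^ (5 * K + 10) := ⟨_, rfl⟩
  rw [← hS]
  obtain ⟨b1, b2, hb, hb1, hb2⟩ := count K X R x0 L hK
    ((S.filter fun m => x0 < m).image fun m => m - 1)
    (by
      intro n hn
      obtain ⟨m, hm, rfl⟩ := mem_image.1 hn
      obtain ⟨hm1, hm2⟩ := mem_filter.1 hm
      rw [hS] at hm1
      obtain ⟨hm3, hm4⟩ := mem_filter.1 hm1
      have hm5 := mem_Icc.1 hm3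
      refine ⟨by omega, by omega, fun q hq hd => ?_⟩
      have h1 := hm4 q hq hd
      have h2 := hlog m (hpw 4 (by omega)) (hx0 ▸ hm2)
      have hLR : (0 : ℝ) < (L : ℝ) ^ (5 * K + 9) := by exact_mod_cast hLA
      have h3 : (m : ℝ) / Real.log m ^ (5 * K + 10) ≤ X / (L : ℝ) ^ (5 * K + 9) :=
        div_le_div₀ (Nat.cast_nonneg _) (by exact_mod_cast hm5.2) hLR h2
      have h4 : (X : ℝ) / (L : ℝ) ^ (5 * K + 9) < R := by
        rw [div_lt_iff₀ hLR]
        have : X < R * L ^ (5 * K + 9) := (Nat.div_lt_iff_lt_mul hLA).1 (by omega)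
        exact_mod_cast this
      have h5 : q < m + R := by
        have : (q : ℝ) < m + R := by linarith
        exact_mod_cast this
      omega)
    (by omega) H1 hx1
  have hcard : S.card ≤ x0 + (b1 + b2) := by
    rw [← hb, ← card_filter_add_card_filter_not (s := S) (fun m => x0 < m), add_comm,
      Finset.card_image_of_injOn]
    · refine Nat.add_le_add_right ?_ _
      calc _ ≤ (Icc 1 x0).card := by
            refine card_le_card fun m hm => ?_
            obtain ⟨h1, h2⟩ := mem_filter.1 hm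
            rw [hS] at h1
            exact mem_Icc.2 ⟨(mem_Icc.1 (mem_filter.1 h1).1).1, by omega⟩
        _ = x0 := by simp
    · intro m hm m' hm' he
      have h1 := (mem_filter.1 hm).2
      have h2 := (mem_filter.1 hm').2
      simp only at he
      omega
  have hQ := pi_add_le X R
  rw [← hP] at hQ
  have hb3 : b2 * L ≤ 16 * P := by
    have hpos : 0 < x0 * L ^ 2 := by omega
    refine Nat.le_of_mul_le_mul_right (c := x0 * L ^ 2) ?_ hpos
    calc b2 * L * (x0 * L ^ 2) = b2 * x0 * L ^ 3 := by ring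
      _ ≤ 2 * Nat.primeCounting (X + R) * R * L ^ (5 * K + 6) * L ^ 3 :=
        Nat.mul_le_mul_right _ hb2
      _ = 2 * Nat.primeCounting (X + R) * (R * L ^ (5 * K + 9)) := by ring
      _ ≤ 2 * (2 * P) * (2 * (2 * (x0 * L ^ 2))) :=
        Nat.mul_le_mul (by omega) (by omega)
      _ = 16 * P * (x0 * L ^ 2) := by ring
  have hb4 : (K + 1) * b1 ≤ P + R := hb1.trans hQ
  have hLR : (0 : ℝ) < L := by exact_mod_cast (show 0 < L by omega)
  have hδL : 24 ≤ δ * L := by
    have := Nat.ceil_le.1 H3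
    rwa [div_le_iff₀ hδ, mul_comm] at this
  have r1 : (b1 : ℝ) ≤ 1 / (K + 1) * P + R := by
    have h1 : ((K : ℝ) + 1) * b1 ≤ P + R := by exact_mod_cast hb4
    have hK0 : (0 : ℝ) ≤ K := Nat.cast_nonneg _
    have h2 : (b1 : ℝ) ≤ (P + R) / (K + 1) := by
      rw [le_div_iff₀ (by linarith), mul_comm]; exact h1
    have h3 : (R : ℝ) / (K + 1) ≤ R := div_le_self (Nat.cast_nonneg _) (by linarith)
    rw [add_div] at h2
    rw [one_div_mul_eq_div]
    linarith
  have r2 : ((x0 : ℝ) + R + b2) * L ≤ δ * P * L := by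
    have h1 : (x0 + R + b2) * L ≤ 24 * P := by rw [add_mul, add_mul]; omega
    have h2 : ((x0 : ℝ) + R + b2) * L ≤ 24 * P := by exact_mod_cast h1
    have h3 := mul_le_mul_of_nonneg_right hδL (Nat.cast_nonneg (α := ℝ) P)
    linarith
  have r3 := le_of_mul_le_mul_right r2 hLR
  have r4 : (S.card : ℝ) ≤ x0 + (b1 + b2) := by exact_mod_cast hcard
  rw [add_mul]
  linarith

end Pool.Agent.P.MP_8e1b3573_nt
end
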